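import Mathlib
import Pool.Agent.W785.DF.Stubs2

/-!
# Dense sets of initial data with global smooth solutions (project DD): definitions and statements

Galerkin systems for the unforced periodic Navier-Stokes equations, with the definitions of
`Pool.Agent.W785.DF.Base`: `K3 = ℤ³`, `E3 = ℂ³`, `W785.DF.sq k = |k|²`, `dk k v = k · v`, `kv k` the vector `k`,
`cj` complex conjugation, `Pk` the Leray projection, `Nl S a k` the Fourier coefficient of `(v·∇)v`,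
`Fld S a`: coefficients of real divergence free fields with frequencies in `S`, `Fr S`: `S` is
symmetric and does not contain `0`.
-/

set_option autoImplicit false

open MeasureTheory Set
open scoped ContDiff InnerProductSpace ENNReal

namespace Pool.Agent.W795.DD

open H459R3.NS (V K3 Per pd fr ee cube)
open Pool.Agent.W785.DF (E3 dk kv cj Pk Nl Fld Fr TP tp frv Herm IsAdmissible)

/-! ### definitions -/

/-- `|k|` -/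
noncomputable def ab (k : K3) : ℝ := Real.sqrt (W785.DF.sq k)

/-- `∑ |k|⁻¹ |a|` -/
noncomputable def An (S : Finset K3) (a : K3 → E3) : ℝ := ∑ k ∈ S, ‖a k‖ / ab k

/-- `∑ |k|ᵐ |a|` -/
noncomputable def A (m : ℕ) (S : Finset K3) (a : K3 → E3) : ℝ := ∑ k ∈ S, ab k ^ m * ‖a k‖

/-- Fourier coefficients of `(v·∇)w` (`Nl S a = Bl S a a`). -/
noncomputable def Bl (S : Finset K3) (a b : K3 → E3) (k : K3) : E3 :=
  ∑ l ∈ S, (2 * Real.pi * Complex.I * dk (k - l) (a l)) • b (k - l)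

theorem Nl_eq (S : Finset K3) (a : K3 → E3) : Nl S a = Bl S a a := rfl

/-- The factor of the linear term. -/
noncomputable def lam (ν : ℝ) (k : K3) : ℂ := ((4 * Real.pi ^ 2 * ν * W785.DF.sq k : ℝ) : ℂ)

/-- `x` is a solution of the Galerkin system on `[0,T]` with initial value `b0`. -/
structure NSG (S : Finset K3) (ν T : ℝ) (b0 : K3 → E3) (x : ℝ → K3 → E3) : Prop where
  fld : ∀ t ∈ Icc 0 T, Fld S (x t)
  smooth : ∀ k, ContDiffOn ℝ ∞ (fun t => x t k) (Icc 0 T)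
  ode : ∀ t ∈ Icc 0 T, ∀ k ∈ S, HasDerivWithinAt (fun s => x s k)
    (-(lam ν k • x t k) - Pk k (Nl S (x t) k)) (Icc 0 T) t
  init : x 0 = b0

/-- The field `z p exp(2πi μ·x) + z̄ p exp(-2πi μ·x)`. -/
noncomputable def MF (μ p : K3) (z : ℂ) (k : K3) : E3 :=
  if k = μ then z • kv p else if k = -μ then (star z) • kv p else 0

/-- Bounds for the Galerkin solutions with initial value `b0`, uniform in the set of frequencies and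
in the time. -/
def Bd (ν : ℝ) (F : Finset K3) (b0 : K3 → E3) (K θ ρ : ℝ) : Prop :=
  ∀ S : Finset K3, Fr S → F ⊆ S → ∀ T : ℝ, 0 < T → ∀ x : ℝ → K3 → E3, NSG S ν T b0 x →
    (∫ s in (0 : ℝ)..T, A 0 S (x s) ^ 2) ≤ K ∧ (θ ≤ T → (∫ s in θ..T, A 1 S (x s)) ≤ ρ)

/-- The dyadic shell `2ʲ ≤ |k| < 2ʲ⁺¹`. -/
def shell (j : ℕ) : Set K3 := {k | (4 : ℝ) ^ j ≤ W785.DF.sq k ∧ W785.DF.sq k < 4 ^ (j + 1)}

open Classical in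
/-- `∑_j (2⁻ʲ ∑_{2ʲ ≤ |k| < 2ʲ⁺¹} |a(k)|)^q` -/
noncomputable def crq (q : ℝ) (a : K3 → E3) : ℝ≥0∞ :=
  ∑' j : ℕ, ((2 : ℝ≥0∞)⁻¹ ^ j * ∑' k : K3, if k ∈ shell j then ‖a k‖ₑ else 0) ^ q

/-- Nonlinear term, infinite sums. -/
noncomputable def NlI (a : K3 → E3) (k : K3) : E3 :=
  ∑' l : K3, (2 * Real.pi * Complex.I * dk (k - l) (a l)) • a (k - l)

/-- Global solutions of the equations in terms of the Fourier coefficients. -/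
structure NSL (ν : ℝ) (b0 : K3 → E3) (x : ℝ → K3 → E3) : Prop where
  zero : ∀ t, 0 ≤ t → x t 0 = 0
  sym : ∀ t, 0 ≤ t → ∀ k, x t (-k) = cj (x t k)
  div : ∀ t, 0 ≤ t → ∀ k, dk k (x t k) = 0
  decay : ∀ m : ℕ, ∃ C : ℝ, ∀ t, 0 ≤ t → ∀ k, (1 + W785.DF.sq k) ^ m * ‖x t k‖ ≤ C
  ode : ∀ t, 0 ≤ t → ∀ k, HasDerivWithinAt (fun s => x s k)
    (-(lam ν k • x t k) - Pk k (NlI (x t) k)) (Ici 0) t
  init : x 0 = b0

/-- Rapidly decreasing coefficients, continuous in the time, uniformly for bounded times. -/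
def RD (c : ℝ → K3 → ℂ) : Prop :=
  (∀ k, ContinuousOn (fun t => c t k) (Ici 0)) ∧
  ∀ (m : ℕ) (T : ℝ), ∃ C : ℝ, ∀ t ∈ Icc 0 T, ∀ k, (1 + W785.DF.sq k) ^ m * ‖c t k‖ ≤ C

/-- `n` derivatives in the time, all rapidly decreasing. -/
def TC : ℕ → (ℝ → K3 → ℂ) → Prop
  | 0, c => RD c
  | n + 1, c => RD c ∧ ∃ c' : ℝ → K3 → ℂ, TC n c' ∧
      ∀ t, 0 ≤ t → ∀ k, HasDerivWithinAt (fun s => c s k) (c' t k) (Ici 0) t

/-- The sum of a Fourier series. -/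
noncomputable def FS (γ : K3 → ℂ) (x : V) : ℂ := ∑' k : K3, γ k * ee k x

/-! ### statements -/

/-- DD-EX: existence for the Galerkin system. -/
def S_ex : Prop := ∀ S : Finset K3, Fr S → ∀ ν T : ℝ, 0 < ν → 0 < T → ∀ b0 : K3 → E3, Fld S b0 →
  ∃ x : ℝ → K3 → E3, NSG S ν T b0 x

/-- DD-PERT: the perturbation estimate in `∑ |k|⁻¹ |v|`. -/
def S_pert : Prop := ∀ S : Finset K3, Fr S → ∀ ν T δ : ℝ, 0 < ν → 0 < T → δ < Real.pi * ν / 2 →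
  ∀ a v e : ℝ → K3 → E3,
  (∀ t ∈ Icc 0 T, Fld S (a t)) → (∀ t ∈ Icc 0 T, Fld S (v t)) →
  (∀ k, ContinuousOn (fun t => a t k) (Icc 0 T)) →
  (∀ k, ContinuousOn (fun t => e t k) (Icc 0 T)) →
  (∀ t ∈ Icc 0 T, ∀ k ∈ S, HasDerivWithinAt (fun s => v s k)
    (-(lam ν k • v t k) - Pk k (Bl S (a t) (v t) k + Bl S (v t) (a t) k + Bl S (v t) (v t) k)
      + e t k) (Icc 0 T) t) →
  Real.exp (2 / ν * ∫ s in (0 : ℝ)..T, A 0 S (a s) ^ 2)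
    * (An S (v 0) + ∫ s in (0 : ℝ)..T, An S (e s)) ≤ δ →
  (∀ t ∈ Icc 0 T, An S (v t) ≤ δ) ∧
    (∫ s in (0 : ℝ)..T, A 1 S (v s)) ≤ δ / (Real.pi ^ 2 * ν)

/-- DD-PROP: propagation of higher norms; the norm `∑ |x|` decreases once it is small. -/
def S_prop : Prop :=
  (∀ m : ℕ, ∃ C : ℝ, 0 < C ∧ ∀ S : Finset K3, Fr S → ∀ ν T : ℝ, 0 < ν → 0 < T →
    ∀ (b0 : K3 → E3) (x : ℝ → K3 → E3), NSG S ν T b0 x → ∀ t ∈ Icc 0 T,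
      A m S (x t) ≤ A m S b0 * Real.exp (C / ν * ∫ s in (0 : ℝ)..t, A 0 S (x s) ^ 2)) ∧
  ∀ S : Finset K3, Fr S → ∀ ν T : ℝ, 0 < ν → 0 < T →
    ∀ (b0 : K3 → E3) (x : ℝ → K3 → E3), NSG S ν T b0 x → ∀ t0 ∈ Icc 0 T,
      A 0 S (x t0) ≤ Real.pi * ν / 2 → ∀ t ∈ Icc t0 T, A 0 S (x t) ≤ A 0 S (x t0)

/-- DD-WAVE: the pair of waves of frequency about `N` which, in a time of order `N⁻²`, produces the
change `-MF μ p z` of the field. -/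
def S_wave : Prop := ∀ ν : ℝ, 0 < ν → ∀ μ p : K3, μ ≠ 0 → p ≠ 0 → ∑ j, μ j * p j = 0 →
  ∃ C1 : ℝ, 0 < C1 ∧ ∀ z : ℂ, ∃ C κ : ℝ, 0 < C ∧ 0 < κ ∧ ∃ N0 : ℕ, 0 < N0 ∧ ∀ N : ℕ, N0 ≤ N →
  ∃ (F : Finset K3) (w0 : K3 → E3), Fr F ∧ Fld F w0 ∧ F.card ≤ 4 ∧ (∀ k ∈ F, (N : ℝ) ≤ ab k) ∧
    (∀ k, ‖w0 k‖ ≤ C1 * Real.sqrt ‖z‖ * ab k) ∧
    ∀ S : Finset K3, Fr S → F ⊆ S → μ ∈ S → ∃ r e : ℝ → K3 → E3,
      (∀ t, Fld S (r t)) ∧ (∀ k, ContDiff ℝ ∞ fun t => r t k) ∧ (∀ k, Continuous fun t => e t k) ∧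
      (∀ t, ∀ k ∈ S, HasDerivAt (fun s => r s k)
        (-(lam ν k • r t k) - Pk k (Nl S (r t) k) + e t k) t) ∧
      An S (r 0 - w0 - MF μ p z) ≤ C / N ∧
      ∀ t, 0 ≤ t → A 0 S (r t) ≤ C * N * Real.exp (-(κ * N ^ 2 * t)) ∧
        A 1 S (r t) ≤ C * N ^ 2 * Real.exp (-(κ * N ^ 2 * t)) ∧
        An S (e t) ≤ C * N * Real.exp (-(κ * N ^ 2 * t))

/-- DD-STEP: adding a mode and a wave. -/
def S_step : Prop := ∀ ν : ℝ, 0 < ν → ∀ μ p : K3, μ ≠ 0 → p ≠ 0 → ∑ j, μ j * p j = 0 →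
  ∃ C1 : ℝ, 0 < C1 ∧ ∀ (z : ℂ) (θ : ℝ), 0 < θ → ∀ (F0 : Finset K3) (b0 : K3 → E3) (K ρ ρ' : ℝ),
  Fr F0 → Fld F0 b0 → Bd ν F0 b0 K θ ρ → ρ < ρ' → ∀ N1 : ℕ,
  ∃ (F : Finset K3) (w0 : K3 → E3) (K' : ℝ), Fr F ∧ Fld F w0 ∧ F.card ≤ 4 ∧
    (∀ k ∈ F, (N1 : ℝ) ≤ ab k) ∧ (∀ k, ‖w0 k‖ ≤ C1 * Real.sqrt ‖z‖ * ab k) ∧
    Bd ν (F0 ∪ ({μ, -μ} ∪ F)) (b0 + MF μ p z + w0) K' θ ρ'

/-- DD-MODES: decomposition into fields `MF`. -/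
def S_modes : Prop := ∀ F : Finset K3, Fr F → ∀ b : K3 → E3, Fld F b →
  ∃ L : List (K3 × K3 × ℂ), (∀ τ ∈ L, τ.1 ∈ F ∧ τ.2.1 ≠ 0 ∧ ∑ j, τ.1 j * τ.2.1 j = 0) ∧
    (L.map fun τ => MF τ.1 τ.2.1 τ.2.2).sum = b

/-- DD-CHAIN: every trigonometric field can be perturbed into one with bounds. -/
def S_chain : Prop := ∀ ν q : ℝ, 0 < ν → 2 < q → ∀ (F0 : Finset K3) (D : K3 → E3), Fr F0 →
  Fld F0 D → ∀ ε θ ρ : ℝ, 0 < ε → 0 < θ → 0 < ρ →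
  ∃ (F : Finset K3) (W : K3 → E3) (K : ℝ), Fr F ∧ Fld F W ∧ F0 ⊆ F ∧
    crq q W ≤ ENNReal.ofReal ε ∧ Bd ν F (D + W) K θ ρ

/-- DD-CAUCHY: comparison of Galerkin solutions. -/
def S_cauchy : Prop := ∀ (ν K θ ρ : ℝ) (F : Finset K3) (b0 : K3 → E3), 0 < ν → Fr F → Fld F b0 →
  Bd ν F b0 K θ ρ → ∀ T : ℝ, 0 < T → ∃ C R0 : ℝ, 0 < C ∧ 0 < R0 ∧ ∀ R : ℝ, R0 ≤ R →
  ∀ S S' : Finset K3, Fr S → Fr S' → F ⊆ S → S ⊆ S' → (∀ k ∈ S', k ∉ S → R ≤ ab k) →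
  ∀ x x' : ℝ → K3 → E3, NSG S ν T b0 x → NSG S' ν T b0 x' → ∀ t ∈ Icc 0 T, ∀ k,
    ‖x' t k - x t k‖ ≤ C * ab k / R

/-- DD-LIMIT: the limit of the Galerkin solutions. -/
def S_limit : Prop := ∀ (ν K θ ρ : ℝ) (F : Finset K3) (b0 : K3 → E3), 0 < ν → 0 < θ → Fr F →
  Fld F b0 → Bd ν F b0 K θ ρ → ρ / θ ≤ Real.pi * ν / 2 → ∃ x : ℝ → K3 → E3, NSL ν b0 x ∧
    ∀ t, 2 * θ ≤ t → ∀ G : Finset K3, ∑ k ∈ G, ‖x t k‖ ≤ ρ / θ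

/-- DD-TC: closure properties of the classes `TC n`. -/
def S_tc : Prop :=
  (∀ (n : ℕ) (c d : ℝ → K3 → ℂ), TC n c → TC n d → TC n fun t k => c t k + d t k) ∧
  (∀ (n : ℕ) (c : ℝ → K3 → ℂ) (m : K3 → ℂ) (C : ℝ) (M : ℕ), (∀ k, ‖m k‖ ≤ C * (1 + W785.DF.sq k) ^ M) →
    TC n c → TC n fun t k => m k * c t k) ∧
  (∀ (n : ℕ) (c d : ℝ → K3 → ℂ), TC n c → TC n d →
    TC n fun t k => ∑' l : K3, c t l * d t (k - l)) ∧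
  (∀ (n : ℕ) (c : ℝ → K3 → ℂ), TC (n + 1) c → TC n c)

/-- DD-REG: the coefficients of a solution are smooth in the time. -/
def S_reg : Prop := ∀ (ν : ℝ) (b0 : K3 → E3) (x : ℝ → K3 → E3), 0 < ν → NSL ν b0 x →
  ∀ (i : Fin 3) (n : ℕ), TC n fun t k => x t k i

/-- DD-SYN: synthesis: sums of Fourier series with smooth rapidly decreasing coefficients. -/
def S_syn : Prop :=
  (∀ c : ℝ → K3 → ℂ, (∀ n, TC n c) →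
    ContDiffOn ℝ ∞ (fun z : ℝ × V => FS (c z.1) z.2) (Ici 0 ×ˢ univ)) ∧
  (∀ c c' : ℝ → K3 → ℂ, RD c → RD c' →
    (∀ t, 0 ≤ t → ∀ k, HasDerivWithinAt (fun s => c s k) (c' t k) (Ici 0) t) →
    ∀ t, 0 ≤ t → ∀ x, HasDerivWithinAt (fun s => FS (c s) x) (FS (c' t) x) (Ici 0) t) ∧
  ∀ γ : K3 → ℂ, (∀ m : ℕ, ∃ C : ℝ, ∀ k, (1 + W785.DF.sq k) ^ m * ‖γ k‖ ≤ C) →
    (∀ x, Summable fun k => γ k * ee k x) ∧ ContDiff ℝ ∞ (FS γ) ∧ Per (FS γ) ∧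
    (∀ j x, pd j (FS γ) x = FS (fun k => 2 * Real.pi * Complex.I * (k j : ℂ) * γ k) x) ∧
    ∀ δ : K3 → ℂ, (∀ m : ℕ, ∃ C : ℝ, ∀ k, (1 + W785.DF.sq k) ^ m * ‖δ k‖ ≤ C) → ∀ x,
      FS γ x * FS δ x = FS (fun k => ∑' l : K3, γ l * δ (k - l)) x

/-- DD-RECON: reconstruction of the velocity and the pressure. -/
def S_recon : Prop := ∀ (ν : ℝ) (F : Finset K3) (b0 : K3 → E3) (x : ℝ → K3 → E3), 0 < ν →
  Fr F → Fld F b0 → NSL ν b0 x → ∃ (u : ℝ → V → V) (p : ℝ → V → ℝ),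
    IsAdmissible ν (TP F b0) (fun _ _ => 0) u p ∧
    ∀ t, 0 ≤ t → ∀ B : ℝ, (∀ G : Finset K3, ∑ k ∈ G, ‖x t k‖ ≤ B) → ∀ y i, |u t y i| ≤ B

/-- DD-GAL: Galilean transformation. -/
def S_gal : Prop := ∀ (ν : ℝ) (v0 : V → V) (u : ℝ → V → V) (p : ℝ → V → ℝ) (c : V),
  IsAdmissible ν v0 (fun _ _ => 0) u p →
  IsAdmissible ν (fun x => v0 x + c) (fun _ _ => 0) (fun t x => u t (x - t • c) + c)
    (fun t x => p t (x - t • c))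

/-- DD-APPR: smooth fields are approximated by their partial sums. -/
def S_appr : Prop := ∀ (q : ℝ) (u0 : V → V), 2 < q → ContDiff ℝ ∞ u0 → Per u0 →
  ∀ δ : ℝ, 0 < δ → ∃ F : Finset K3, Fr F ∧
    crq q (fun k => if k ∈ F then 0 else frv u0 k) ≤ ENNReal.ofReal δ

end Pool.Agent.W795.DD
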