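import Mathlib
import Pool.Agent.W795.DD.Stm

/-!
# Project DD: statements of smaller parts
-/

set_option autoImplicit false

open MeasureTheory Set
open scoped ContDiff InnerProductSpace ENNReal

namespace Pool.Agent.W795.DD

open H459R3.NS (V K3 Per pd fr ee cube)
open Pool.Agent.W785.DF (E3 dk kv cj Pk Nl Fld Fr TP tp frv Herm IsAdmissible)

/-- A plane wave: `a exp(2πi κ·x) + ā exp(-2πi κ·x)`. -/
noncomputable def PW (κ : K3) (a : E3) (k : K3) : E3 :=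
  if k = κ then a else if k = -κ then cj a else 0

/-- DD-WAVE-A: the nonlinear term of plane waves. -/
def S_pw : Prop :=
  (∀ (μ p : K3) (z : ℂ), MF μ p z = PW μ (z • kv p)) ∧
  (∀ (S : Finset K3), Fr S → ∀ (κ : K3) (a : E3), κ ∈ S → dk κ a = 0 → Fld S (PW κ a) ∧
    (∀ m : ℕ, A m S (PW κ a) = 2 * ab κ ^ m * ‖a‖) ∧ An S (PW κ a) = 2 * ‖a‖ / ab κ) ∧
  (∀ (S : Finset K3), Fr S → ∀ (κ : K3) (a : E3), κ ∈ S → dk κ a = 0 →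
    ∀ k, Bl S (PW κ a) (PW κ a) k = 0) ∧
  (∀ (S : Finset K3), Fr S → ∀ (κ κ' : K3) (a b : E3), κ ∈ S → κ' ∈ S → κ ≠ κ' → κ ≠ -κ' →
    ∀ k, Bl S (PW κ a) (PW κ' b) k =
      (if k = κ + κ' then (2 * Real.pi * Complex.I * dk κ' a) • b else 0)
      + (if k = κ' - κ then (2 * Real.pi * Complex.I * dk κ' (cj a)) • b else 0)
      + (if k = κ - κ' then (2 * Real.pi * Complex.I * dk (-κ') a) • cj b else 0)
      + (if k = -κ - κ' then (2 * Real.pi * Complex.I * dk (-κ') (cj a)) • cj b else 0)) ∧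
  (∀ (S : Finset K3), Fr S → ∀ (a b : K3 → E3), Fld S a → Fld S b →
    An S (Bl S a b) ≤ 2 * Real.pi * A 0 S a * A 0 S b) ∧
  (∀ (k : K3) (v : E3), ‖Pk k v‖ ≤ ‖v‖) ∧
  ∀ (S : Finset K3) (a a' b b' : K3 → E3) (k : K3),
    Bl S (a + a') (b + b') k = Bl S a b k + Bl S a b' k + Bl S a' b k + Bl S a' b' k

/-- DD-SYN-1 -/
def S_syn1 : Prop := ∀ c : ℝ → K3 → ℂ, (∀ n, TC n c) →
    ContDiffOn ℝ ∞ (fun z : ℝ × V => FS (c z.1) z.2) (Ici 0 ×ˢ univ)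

/-- DD-SYN-2 -/
def S_syn2 : Prop := ∀ c c' : ℝ → K3 → ℂ, RD c → RD c' →
    (∀ t, 0 ≤ t → ∀ k, HasDerivWithinAt (fun s => c s k) (c' t k) (Ici 0) t) →
    ∀ t, 0 ≤ t → ∀ x, HasDerivWithinAt (fun s => FS (c s) x) (FS (c' t) x) (Ici 0) t

/-- DD-SYN-3 -/
def S_syn3 : Prop := ∀ γ : K3 → ℂ, (∀ m : ℕ, ∃ C : ℝ, ∀ k, (1 + W785.DF.sq k) ^ m * ‖γ k‖ ≤ C) →
    (∀ x, Summable fun k => γ k * ee k x) ∧ ContDiff ℝ ∞ (FS γ) ∧ Per (FS γ) ∧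
    (∀ j x, pd j (FS γ) x = FS (fun k => 2 * Real.pi * Complex.I * (k j : ℂ) * γ k) x) ∧
    ∀ δ : K3 → ℂ, (∀ m : ℕ, ∃ C : ℝ, ∀ k, (1 + W785.DF.sq k) ^ m * ‖δ k‖ ≤ C) → ∀ x,
      FS γ x * FS δ x = FS (fun k => ∑' l : K3, γ l * δ (k - l)) x

theorem syn_of (h1 : S_syn1) (h2 : S_syn2) (h3 : S_syn3) : S_syn := ⟨h1, h2, h3⟩

end Pool.Agent.W795.DD
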