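import Mathlib
import Pool.Agent.W795.DD.Stm
import Pool.Agent.W785.DF.Ode
import Pool.Agent.W785.DF.Alg

/-!
# Project DD: existence for the Galerkin system
-/

set_option autoImplicit false

open MeasureTheory Set
open scoped ContDiff InnerProductSpace ENNReal

namespace Pool.Agent.W795.DD

open H459R3.NS (V K3 Per pd fr ee cube)
open Pool.Agent.W785.DF (E3 dk kv cj Pk Nl Fld Fr TP tp frv Herm IsAdmissible)

theorem ex : S_ex := by
  intro S hS ν T hν hT b0 hb
  have hode := Pool.Agent.W785.DF.Ode.main Pool.Agent.W785.DF.energy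
  obtain ⟨x, hx⟩ := hode S hS ν T hν hT (fun _ _ => 0) (fun _ => contDiff_const)
    (fun _ _ _ => le_rfl) (fun _ _ => rfl) (fun _ => 0) contDiff_const
    (fun _ => Pool.Agent.W785.DF.cj_zero) (fun _ _ => 0) (fun _ => contDiff_const)
    (fun _ _ => Pool.Agent.W785.DF.cj_zero.symm) b0 hb
  refine ⟨x, hx.fld, hx.smooth, fun t ht k hk => ?_, hx.init⟩
  have h := hx.ode t ht k hk
  have e : -((2 * Real.pi * Complex.I * dk k 0) • x t k) - Pk k (Nl S (x t) k)
      - (((ν + 0) * (4 * Real.pi ^ 2 * W785.DF.sq k) : ℝ) : ℂ) • x t k + Pk k 0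
      = -(lam ν k • x t k) - Pk k (Nl S (x t) k) := by
    have h0 : Pk k 0 = 0 := by
      unfold Pk
      rw [Pool.Agent.W785.DF.dk_zero]
      simp
    rw [h0, Pool.Agent.W785.DF.dk_zero]
    have : lam ν k = (((ν + 0) * (4 * Real.pi ^ 2 * W785.DF.sq k) : ℝ) : ℂ) := by
      unfold lam
      congr 1
      ring
    rw [this]
    simp only [mul_zero, zero_smul, neg_zero, zero_sub, add_zero]
    abel
  rw [← e]
  exact h

end Pool.Agent.W795.DD
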