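import Mathlib
import Pool.Agent.W795.DD.Stm
import Pool.Agent.W809.DFTrig
import Pool.Agent.W378.DfInit

/-!
# Project DD: assembly
-/

set_option autoImplicit false

open MeasureTheory Set
open scoped ContDiff InnerProductSpace ENNReal

namespace Pool.Agent.W795.DD

open H459R3.NS (V K3 Per pd fr fc ee cube)
open Pool.Agent.W785.DF (E3 dk kv cj Pk Nl Fld Fr TP tp frv Herm IsAdmissible)

theorem fr_lin {f g : V → ℝ} (hf : Continuous f) (hg : Continuous g) (c : ℝ) {k : K3}
    (hk : k ≠ 0) : fr (fun x => f x + c - g x) k = fr f k - fr g k := by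
  unfold fr fc
  have hc : Continuous (fun x : V => ee (-k) x) := H459R3.NS.ee_continuous (-k)
  have hF : IntegrableOn (fun x : V => ee (-k) x * ((f x : ℝ) : ℂ)) cube :=
    H459R3.NS.integrableOn_cube (hc.mul (Complex.continuous_ofReal.comp hf))
  have hG : IntegrableOn (fun x : V => ee (-k) x * ((g x : ℝ) : ℂ)) cube :=
    H459R3.NS.integrableOn_cube (hc.mul (Complex.continuous_ofReal.comp hg))
  have hC : IntegrableOn (fun x : V => ee (-k) x * ((c : ℝ) : ℂ)) cube :=
    H459R3.NS.integrableOn_cube (hc.mul continuous_const)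
  have e : (fun x : V => ee (-k) x * ((f x + c - g x : ℝ) : ℂ))
      = fun x => ee (-k) x * ((f x : ℝ) : ℂ) + ee (-k) x * ((c : ℝ) : ℂ)
        - ee (-k) x * ((g x : ℝ) : ℂ) := by
    funext x; push_cast; ring
  rw [e]
  have h1 : ∫ x in cube, (ee (-k) x * ((f x : ℝ) : ℂ) + ee (-k) x * ((c : ℝ) : ℂ)
        - ee (-k) x * ((g x : ℝ) : ℂ))
      = (∫ x in cube, (ee (-k) x * ((f x : ℝ) : ℂ) + ee (-k) x * ((c : ℝ) : ℂ)))
        - ∫ x in cube, ee (-k) x * ((g x : ℝ) : ℂ) := integral_sub (hF.add hC) hG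
  have h2 : ∫ x in cube, (ee (-k) x * ((f x : ℝ) : ℂ) + ee (-k) x * ((c : ℝ) : ℂ))
      = (∫ x in cube, ee (-k) x * ((f x : ℝ) : ℂ)) + ∫ x in cube, ee (-k) x * ((c : ℝ) : ℂ) :=
    integral_add hF hC
  rw [h1, h2, integral_mul_const, H459R3.NS.integral_ee, if_neg (neg_ne_zero.mpr hk), zero_mul,
    add_zero]

theorem shell_zero (j : ℕ) : (0 : K3) ∉ shell j := by
  intro h
  have h1 := h.1
  have : W785.DF.sq (0 : K3) = 0 := by simp [W785.DF.sq]
  rw [this] at h1
  have : (0 : ℝ) < 4 ^ j := by positivity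
  linarith

theorem crq_add {q : ℝ} (hq : 1 ≤ q) {a b c : K3 → E3}
    (h : ∀ k, k ≠ 0 → ‖c k‖ₑ ≤ ‖a k‖ₑ + ‖b k‖ₑ) :
    crq q c ≤ 2 ^ (q - 1) * (crq q a + crq q b) := by
  classical
  unfold crq
  rw [← ENNReal.tsum_add, ← ENNReal.tsum_mul_left]
  refine ENNReal.tsum_le_tsum fun j => ?_
  have h1 : (2 : ℝ≥0∞)⁻¹ ^ j * (∑' k : K3, if k ∈ shell j then ‖c k‖ₑ else 0)
      ≤ (2 : ℝ≥0∞)⁻¹ ^ j * (∑' k : K3, if k ∈ shell j then ‖a k‖ₑ else 0)
        + (2 : ℝ≥0∞)⁻¹ ^ j * (∑' k : K3, if k ∈ shell j then ‖b k‖ₑ else 0) := by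
    rw [← mul_add, ← ENNReal.tsum_add]
    refine mul_le_mul_right ?_ _
    refine ENNReal.tsum_le_tsum fun k => ?_
    by_cases hk : k ∈ shell j
    · simp only [if_pos hk]
      exact h k fun h0 => shell_zero j (h0 ▸ hk)
    · simp [if_neg hk]
  refine (ENNReal.rpow_le_rpow h1 (by linarith)).trans ?_
  exact ENNReal.rpow_add_le_mul_rpow_add_rpow _ _ hq

/-- The main theorem, from the parts. -/
theorem dense (hchain : S_chain) (hlim : S_limit) (hrecon : S_recon) (hgal : S_gal)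
    (happr : S_appr) {ν q : ℝ} (hν : 0 < ν) (hq : 2 < q) {u0 : V → V} (hu0 : ContDiff ℝ ∞ u0)
    (hper : Per u0) (hdiv : ∀ x, ∑ i, pd i (fun y => u0 y i) x = 0) {ε : ℝ} (hε : 0 < ε) :
    ∃ v0 : V → V, ContDiff ℝ ∞ v0 ∧ Per v0 ∧ (∀ x, ∑ i, pd i (fun y => v0 y i) x = 0) ∧
      (∀ i, ∫ x in cube, v0 x i = ∫ x in cube, u0 x i) ∧
      crq q (frv fun x => v0 x - u0 x) ≤ ENNReal.ofReal ε ∧
      ∃ (u : ℝ → V → V) (p : ℝ → V → ℝ), IsAdmissible ν v0 (fun _ _ => 0) u p ∧
        ∀ t, ε ≤ t → ∀ x i, |u t x i - ∫ y in cube, u0 y i| ≤ ε := by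
  classical
  obtain ⟨A0, hA0, -, hsym, hdv⟩ := Pool.Agent.W378.DFI.init u0 hu0 hper
  have hdv' := hdv hdiv
  obtain ⟨htrig, -⟩ := Pool.Agent.W809.DFTrig.main
  -- parameters
  obtain ⟨δ, hδdef⟩ : ∃ δ : ℝ, δ = ε / (2 * 2 ^ (q - 1)) := ⟨_, rfl⟩
  have h2q : (0 : ℝ) < 2 ^ (q - 1) := by positivity
  have hδ : 0 < δ := by rw [hδdef]; positivity
  obtain ⟨F0, hF0, hap⟩ := happr q u0 hq hu0 hper δ hδ
  obtain ⟨D, hD⟩ : ∃ D : K3 → E3, D = fun k => if k ∈ F0 then frv u0 k else 0 := ⟨_, rfl⟩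
  have hcj0 : cj (0 : E3) = 0 := by ext i; simp [cj]
  have hDF : Fld F0 D := by
    refine ⟨fun k hk => by rw [hD]; exact if_neg hk, fun k => ?_, fun k => ?_⟩
    · rw [hD]
      by_cases hk : k ∈ F0
      · have : -k ∈ F0 := hF0.neg k hk
        simp only [if_pos hk, if_pos this]
        exact hsym k
      · have : -k ∉ F0 := fun h => hk (by simpa using hF0.neg _ h)
        simp only [if_neg hk, if_neg this]
        exact hcj0.symm
    · rw [hD]
      by_cases hk : k ∈ F0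
      · simp only [if_pos hk]
        exact hdv' k
      · simp only [if_neg hk]
        simp [dk]
  obtain ⟨θ, hθdef⟩ : ∃ θ : ℝ, θ = ε / 2 := ⟨_, rfl⟩
  have hθ : 0 < θ := by rw [hθdef]; positivity
  obtain ⟨ρ, hρdef⟩ : ∃ ρ : ℝ, ρ = θ * min ε (Real.pi * ν / 2) := ⟨_, rfl⟩
  have hmin : 0 < min ε (Real.pi * ν / 2) := lt_min hε (by positivity)
  have hρ : 0 < ρ := by rw [hρdef]; positivity
  have hρθ : ρ / θ = min ε (Real.pi * ν / 2) := by rw [hρdef]; field_simp
  obtain ⟨F, W, K, hF, hW, hFF, hcW, hbd⟩ := hchain ν q hν hq F0 D hF0 hDF δ θ ρ hδ hθ hρ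
  have hDW : Fld F (D + W) := by
    refine ⟨fun k hk => ?_, fun k => ?_, fun k => ?_⟩
    · rw [Pi.add_apply, hDF.supp k fun h => hk (hFF h), hW.supp k hk, add_zero]
    · rw [Pi.add_apply, Pi.add_apply, hDF.sym, hW.sym]
      ext i; simp [cj]
    · rw [Pi.add_apply]
      have h1 := hDF.div k
      have h2 := hW.div k
      unfold dk at h1 h2 ⊢
      simp only [PiLp.add_apply, mul_add, Finset.sum_add_distrib, h1, h2, add_zero]
  obtain ⟨x, hx, htail⟩ := hlim ν K θ ρ F (D + W) hν hθ hF hDW hbd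
    (by rw [hρθ]; exact min_le_right _ _)
  obtain ⟨u, p, hup, hub⟩ := hrecon ν F (D + W) x hν hF hDW hx
  obtain ⟨c, hc⟩ : ∃ c : V, c = fun i => ∫ y in cube, u0 y i := ⟨_, rfl⟩
  have hG := hgal ν (TP F (D + W)) u p c hup
  have hherm : Herm F (D + W) := ⟨hF.neg, hDW.supp, hDW.sym⟩
  obtain ⟨hs1, hs2, -, hs4, -, hs6, -, -⟩ := htrig F (D + W) hherm
  have hcomp : ∀ i, Continuous fun x => TP F (D + W) x i := fun i =>
    (continuous_apply i).comp hs1.continuous
  have hcompu : ∀ i, Continuous fun x => u0 x i := fun i =>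
    (continuous_apply i).comp hu0.continuous
  refine ⟨fun x => TP F (D + W) x + c, hs1.add contDiff_const, fun i x => ?_, fun x => ?_,
    fun i => ?_, ?_, _, _, hG, ?_⟩
  · show TP F (D + W) (x + Pi.single i 1) + c = TP F (D + W) x + c
    rw [hs2 i x]
  · have h1 := hs4 hDW.div x
    rw [← h1]
    refine Finset.sum_congr rfl fun i _ => ?_
    have e : (fun y => (TP F (D + W) y + c) i) = fun y => TP F (D + W) y i + c i := by
      funext y; rfl
    rw [e]
    unfold pd
    rw [fderiv_add_const]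
  · have h0 : frv (TP F (D + W)) 0 i = 0 := by
      rw [hs6 0, hDW.supp 0 hF.zero]; rfl
    have h1 : ∫ x in cube, TP F (D + W) x i = 0 := by
      have h2 : frv (TP F (D + W)) 0 i = fr (fun x => TP F (D + W) x i) 0 := rfl
      rw [h2] at h0
      unfold fr fc at h0
      simp only [neg_zero, H459R3.NS.ee_zero, one_mul] at h0
      have h3 : ((∫ x in cube, TP F (D + W) x i : ℝ) : ℂ) = 0 := by
        rw [← integral_complex_ofReal]
        exact h0
      exact_mod_cast h3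
    have e : (fun x => (TP F (D + W) x + c) i) = fun x => TP F (D + W) x i + c i := by
      funext y; rfl
    rw [e, integral_add (H459R3.NS.integrableOn_cube (hcomp i))
      (H459R3.NS.integrableOn_cube continuous_const), h1, zero_add]
    rw [setIntegral_const, Measure.real, H459R3.NS.volume_cube, hc]
    simp
  · have hk : ∀ k : K3, k ≠ 0 →
        frv (fun x => TP F (D + W) x + c - u0 x) k = (D + W) k - frv u0 k := by
      intro k hk
      rw [← hs6 k]
      ext i
      show fr (fun x => (TP F (D + W) x + c - u0 x) i) k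
        = fr (fun x => TP F (D + W) x i) k - fr (fun x => u0 x i) k
      exact fr_lin (hcomp i) (hcompu i) (c i) hk
    have h3 : crq q (frv fun x => TP F (D + W) x + c - u0 x)
        ≤ 2 ^ (q - 1) * (crq q W + crq q fun k => if k ∈ F0 then 0 else frv u0 k) := by
      refine crq_add (by linarith) fun k hk0 => ?_
      rw [hk k hk0]
      have e : (D + W) k - frv u0 k = W k + -(if k ∈ F0 then 0 else frv u0 k) := by
        rw [Pi.add_apply, hD]
        by_cases h : k ∈ F0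
        · simp [if_pos h]
        · simp [if_neg h]; abel
      rw [e]
      refine (enorm_add_le _ _).trans ?_
      rw [enorm_neg]
    refine h3.trans ?_
    have h4 : (2 : ℝ≥0∞) ^ (q - 1) = ENNReal.ofReal (2 ^ (q - 1)) := by
      rw [← ENNReal.ofReal_rpow_of_pos (by norm_num)]
      norm_num
    calc 2 ^ (q - 1) * (crq q W + crq q fun k => if k ∈ F0 then 0 else frv u0 k)
        ≤ ENNReal.ofReal (2 ^ (q - 1)) * (ENNReal.ofReal δ + ENNReal.ofReal δ) := by
          rw [h4]; gcongr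
      _ = ENNReal.ofReal (2 ^ (q - 1) * (δ + δ)) := by
          rw [← ENNReal.ofReal_add hδ.le hδ.le, ← ENNReal.ofReal_mul h2q.le]
      _ = ENNReal.ofReal ε := by
          congr 1
          rw [hδdef]
          field_simp
          ring
  · intro t ht y i
    have ht' : 2 * θ ≤ t := by rw [hθdef]; linarith
    have h0 : 0 ≤ t := by linarith
    have h1 := hub t h0 (ρ / θ) (htail t ht') (y - t • c) i
    have e : (u t (y - t • c) + c) i - ∫ y in cube, u0 y i = u t (y - t • c) i := by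
      rw [Pi.add_apply, hc]; ring
    rw [e]
    refine h1.trans ?_
    rw [hρθ]
    exact min_le_left _ _

end Pool.Agent.W795.DD
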